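import Pool.Agent.H591R2.Assemble

/-!
# An unconditional Las Vegas algorithm for representations by eight tetrahedral numbers

There is a probabilistic machine which, on every positive integer `n` written in binary, outputs a
representation of `n` by at most eight tetrahedral numbers: whenever it halts its output is such a
representation, and its expected number of steps is at most a fixed polynomial in the number of
binary digits of `n`.  Nothing unproved is assumed.

The definitions used in the statement are in `Pool.Agent.H591R2.Defs`.
-/

namespace Pool.Agent.Results.MP_efac2b_lc.EightTetrahedralLasVegas

open Pool.Agent.H591R2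

theorem result : ∃ (M : CoinMachine) (p : Polynomial ℕ), ∀ n : ℕ, 1 ≤ n →
    (∀ (w : List Bool) (c : M.Conf), M.run (M.start n.bits) w = some c → c.l = none →
      ∃ L : List ℕ, IsRep n L ∧ M.HaltsWith n.bits w (encList L)) ∧
    M.expectedTime n.bits ≤ (p.eval n.size : ℕ) :=
  Pool.Agent.NPC.R591.las_vegas

end Pool.Agent.Results.MP_efac2b_lc.EightTetrahedralLasVegas
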